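import Pool.Agent.H491R4.AF3

/-! # Lang–Trotter counts for almost all curves `y² = x³ + a x + n` with coefficients in automatic sets

The coefficients run through an arbitrary automatic set `S` (the set of the integers whose digits in a base `b` are accepted
by a finite automaton) of more than polylogarithmic size; such sets may have as few as `N ^ c` elements below `N`, with
arbitrarily small `c > 0`.

Definitions used: in `Pool.Agent.H491R4.AF` (file `Pool/Agent/H491R4/AF2.lean`): `acc b M N E`: the number of the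
integers `v < N` accepted by the automaton `M` (reading the digits of `v` in base `b`, the least significant digit first)
with the property `E`; `AlmostS b M N κ c τ P`: the proportion of the `v < N` accepted by `M` for which `c + κ v` does not
have the property `P` is at most `τ`; in `Pool.Agent.W263.BSD` (file `Pool/Agent/W263/BSD/Defs.lean`):
`pointCount a n p` is the number of the solutions of `y² = x³ + a x + n` modulo `p`, `GoodPrime a n p`: `p` is a prime which
does not divide `2 (4 a³ + 27 n²)`. -/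

set_option autoImplicit false

namespace Pool.Agent.Results.MP_f1937f_nt.AutomaticFamilies

open Finset Filter Pool.Agent.R459.Eq Pool.Agent.H491R4.AF
open Pool.Agent.W263.BSD (GoodPrime pointCount)

/-- `p` is a prime of good reduction of `y² = x³ + a x + n`, and the trace of Frobenius `a_p = p - N_p` is `r`. -/
def Trace (r : ℤ) (p : ℕ) (a n : ℤ) : Prop := GoodPrime a n p ∧ (p : ℤ) - pointCount a n p = r

open Classical in
/-- The number `P_{E, r}(x)` of the primes `p ≤ x` of good reduction of `E : y² = x³ + a x + n` with `a_p(E) = r`. -/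
noncomputable def langTrotter (a n r : ℤ) (x : ℕ) : ℕ := ((range (x + 1)).filter (fun p => Trace r p a n)).card

open Classical in
/-- The sum over the primes `p ≤ x` of the proportion of the residues `ν` modulo `p` for which `p` is a prime of good reduction
of `y² = x³ + a x + ν` with trace `r`. -/
noncomputable def model (a r : ℤ) (x : ℕ) : ℝ :=
  ∑ p ∈ (range (x + 1)).filter Nat.Prime, (((range p).filter (fun ν : ℕ => Trace r p a ν)).card : ℝ) / p

open Classical in
/-- The sum over the primes `p ≤ x` of the proportion of the pairs `(α, ν)` of residues modulo `p` for which `p` is a prime of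
good reduction of `y² = x³ + α x + ν` with trace `r`. -/
noncomputable def modelPairs (r : ℤ) (x : ℕ) : ℝ :=
  ∑ p ∈ (range (x + 1)).filter Nat.Prime,
    (((range p ×ˢ range p).filter (fun z : ℕ × ℕ => Trace r p z.1 z.2)).card : ℝ) / (p : ℝ) ^ 2

lemma pri_eq (x : ℕ) [DecidablePred Nat.Prime] : (range (x + 1)).filter Nat.Prime = pri x := by
  unfold pri
  congr!

lemma langTrotter_eq (a n r : ℤ) (x : ℕ) : langTrotter a n r x = cntR (Trace r) a n x := by
  classical
  unfold langTrotter cntR
  congr 1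
  ext p
  simp only [mem_filter, mem_range, mem_pri]
  constructor
  · rintro ⟨h1, h2⟩
    exact ⟨⟨by omega, h2.1.1⟩, h2⟩
  · rintro ⟨h1, h2⟩
    exact ⟨by omega, h2⟩

lemma model_eq (a r : ℤ) (x : ℕ) : model a r x = ∑ p ∈ pri x, Pool.Agent.R459.Eq.dens (Trace r) a p := by
  classical
  unfold model Pool.Agent.R459.Eq.dens
  rw [pri_eq]

lemma modelPairs_eq (r : ℤ) (x : ℕ) : modelPairs r x = ∑ p ∈ pri x, dens2 (Trace r) p := by
  classical
  unfold modelPairs dens2
  rw [pri_eq]

lemma trace_per (r : ℤ) (p : ℕ) (a a' n n' : ℤ) (h : (p : ℤ) ∣ a - a') (h' : (p : ℤ) ∣ n - n') :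
    Trace r p a n ↔ Trace r p a' n' := by
  have e1 : ((a : ℤ) : ZMod p) = ((a' : ℤ) : ZMod p) := by
    rw [← sub_eq_zero, ← Int.cast_sub, ZMod.intCast_zmod_eq_zero_iff_dvd]
    exact h
  have e2 : ((n : ℤ) : ZMod p) = ((n' : ℤ) : ZMod p) := by
    rw [← sub_eq_zero, ← Int.cast_sub, ZMod.intCast_zmod_eq_zero_iff_dvd]
    exact h'
  have h1 : GoodPrime a n p ↔ GoodPrime a' n' p := by
    unfold GoodPrime
    rw [← ZMod.intCast_zmod_eq_zero_iff_dvd, ← ZMod.intCast_zmod_eq_zero_iff_dvd]
    push_cast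
    rw [e1, e2]
  have h2 : pointCount a n p = pointCount a' n' p := by
    unfold pointCount
    rw [e1, e2]
  unfold Trace
  rw [h1, h2]

/-- **Lang–Trotter counts for almost all curves with coefficients in automatic sets.** Let `S` be the set of the integers
`v ≥ 0` whose digits in base `b ≥ 2` are accepted by a finite automaton `M`, and suppose that `S` has more than
polylogarithmic size: for every `k` there are infinitely many `N` such that more than `(log N) ^ k` elements of `S` are
smaller than `N`. Let `0 < δ ≤ 1 / 2`. There are `W` and `e` such that for `κ ≠ 0` and all sufficiently large `X` the following holds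
for all `N` and all `c`.

(1) For EVERY integer `a`, almost all the `n = c + κ v` with `v ∈ S`, `v < N`, up to a proportion of at most
`4 (log N) ^ e X ^ (- δ / 2)`, have for ALL `x ≥ X` with `x ^ W ≤ N` and ALL integers `|r| ≤ x ^ (δ / 2)`: with `M` the sum over `p ≤ x`
of the proportion of the residues `ν` modulo `p` such that `y² = x³ + a x + ν` has the trace `r`, and `M'` the same sum over
`p ≤ 2 x`, the number of the primes `p ≤ x` of good reduction of `y² = x³ + a x + n` with the trace `r` differs from `M` by at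
most `(max 1 M') ^ (1 / 2) x ^ δ`.

(2) Almost all the `a = c + κ v` with `v ∈ S`, `v < N`, up to a proportion of at most `4 (log N) ^ e X ^ (- δ / 2)`, have for ALL
`x ≥ X` with `x ^ W ≤ N` and ALL integers `|r| ≤ x ^ (δ / 2)`: the sum `M` differs from the sum over `p ≤ x` of the proportion of
the PAIRS of coefficients modulo `p` which have the trace `r` by at most `x ^ δ` times the square root of the maximum of `1`
and the sum of the proportions of the pairs over `p ≤ 2 x`. -/
theorem result {σ : Type} [Fintype σ] (b : ℕ) (hb : 2 ≤ b) (M : DFA ℕ σ)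
    (hS : ∀ k : ℕ, ∃ᶠ N : ℕ in atTop, Real.log N ^ k < (acc b M N (fun _ => True) : ℝ))
    (δ : ℝ) (hδ : 0 < δ) (hδ1 : δ ≤ 1 / 2) : ∃ W e : ℕ, 1 ≤ W ∧
    ∀ κ : ℤ, κ ≠ 0 → ∃ X₀ : ℕ, ∀ X : ℕ, X₀ ≤ X → ∀ N : ℕ, ∀ c : ℤ,
    (∀ a : ℤ, AlmostS b M N κ c (4 * Real.log N ^ e * (X : ℝ) ^ (-(δ / 2))) (fun n => ∀ x : ℕ, X ≤ x → x ^ W ≤ N →
      ∀ r : ℤ, (|r| : ℝ) ≤ (x : ℝ) ^ (δ / 2) →
        |(langTrotter a n r x : ℝ) - model a r x| ≤ √(max 1 (model a r (2 * x))) * (x : ℝ) ^ δ)) ∧
    AlmostS b M N κ c (4 * Real.log N ^ e * (X : ℝ) ^ (-(δ / 2))) (fun a => ∀ x : ℕ, X ≤ x → x ^ W ≤ N →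
      ∀ r : ℤ, (|r| : ℝ) ≤ (x : ℝ) ^ (δ / 2) →
        |model a r x - modelPairs r x| ≤ √(max 1 (modelPairs r (2 * x))) * (x : ℝ) ^ δ) := by
  obtain ⟨W, e, hW, H⟩ := two_count_aut b hb M hS δ hδ hδ1
  refine ⟨W, e, hW, fun κ hκ => ?_⟩
  obtain ⟨X₀, J⟩ := H κ hκ
  refine ⟨X₀, fun X hX N c => ?_⟩
  have hfew : ∀ σ : ℤ, σ = 1 ∨ σ = -1 → ∀ p : ℕ, p.Prime → ∀ (a n : ℤ) (Q : Finset ℕ), (∀ j ∈ Q, Trace (σ * j) p a n) →
      Q.card ≤ Nat.log 2 p + 3 := by
    intro σ hσ p _ a n Q hQ
    have h1 : Q.card ≤ 1 := by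
      rw [card_le_one]
      intro j hj j' hj'
      have h2 := (hQ j hj).2
      have h3 := (hQ j' hj').2
      rw [h2] at h3
      have h4 : (j : ℤ) = j' := by
        rcases hσ with h | h <;> rw [h] at h3 <;> linarith
      exact_mod_cast h4
    omega
  obtain ⟨h1, h2⟩ := J X hX N c (fun j : ℕ => Trace (1 * j)) (fun j p _ a a' n n' => trace_per _ p a a' n n') (hfew 1 (Or.inl rfl))
  obtain ⟨h3, h4⟩ := J X hX N c (fun j : ℕ => Trace (-1 * j)) (fun j p _ a a' n n' => trace_per _ p a a' n n') (hfew (-1) (Or.inr rfl))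
  have hr : ∀ r : ℤ, ∃ j : ℕ, (r = 1 * j ∨ r = -1 * j) ∧ (j : ℝ) = |(r : ℝ)| := by
    intro r
    refine ⟨r.natAbs, ?_, ?_⟩
    · rcases Int.natAbs_eq r with h | h
      · left
        omega
      · right
        omega
    · rw [← Int.cast_abs, Int.abs_eq_natAbs]
      rfl
  have h8 : 4 * Real.log N ^ e * (X : ℝ) ^ (-(δ / 2)) =
      Real.log N ^ e * (2 * (X : ℝ) ^ (-(δ / 2))) + Real.log N ^ e * (2 * (X : ℝ) ^ (-(δ / 2))) := by ring
  rw [h8]
  constructor
  · intro a
    refine AlmostS.mono (AlmostS.and (h1 a) (h3 a)) ?_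
    rintro n ⟨hn, hn'⟩ x hXx hxW r hrx
    rw [langTrotter_eq, model_eq, model_eq]
    obtain ⟨j, hj | hj, hj2⟩ := hr r
    · rw [hj]
      exact (hn x hXx hxW).2 j (by rw [hj2]; exact hrx)
    · rw [hj]
      exact (hn' x hXx hxW).2 j (by rw [hj2]; exact hrx)
  · refine AlmostS.mono (AlmostS.and h2 h4) ?_
    rintro a ⟨hn, hn'⟩ x hXx hxW r hrx
    rw [model_eq, modelPairs_eq, modelPairs_eq]
    obtain ⟨j, hj | hj, hj2⟩ := hr r
    · rw [hj]
      exact (hn x hXx hxW).2 j (by rw [hj2]; exact hrx)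
    · rw [hj]
      exact (hn' x hXx hxW).2 j (by rw [hj2]; exact hrx)

end Pool.Agent.Results.MP_f1937f_nt.AutomaticFamilies
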