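import Pool.Agent.R459.Eq18

/-! # Lang–Trotter counts for almost all curves `y² = x³ + a x + n` with coefficients in sparse families given by digits

The coefficients run through families with as few as `N ^ c` of the integers up to `N = b ^ k`, with any `c > 0`: the
rearrangements of `k` digits, the palindromes, the integers with independent pairs of mirror digits (in particular all
integers whose `i`-th digit lies in an arbitrary set `D i` with at least two digits, for all `i`).

For every `a` and almost all `n` in such a family, the number of the primes `p ≤ x` of good reduction of `E : y² = x³ + a x + n` with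
`a_p(E) = r` is, for all `|r| ≤ x ^ (δ / 2)` and all `x` up to a fixed power of `N`, equal to the sum over `p ≤ x` of the exact
proportion of the residues `ν` modulo `p` for which `y² = x³ + a x + ν` has the trace `r`, with an error of the size of the SQUARE
ROOT of this sum; and for almost all `a` in such a family the proportion can be replaced by the proportion of all pairs
of coefficients modulo `p`.

Definitions used: in `Pool.Agent.R459.Eq` (file `Pool/Agent/R459/Eq6.lean`): `Almost b k κ c η τ P`: almost all the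
members `c + κ v` of the three families have the property `P`, up to a proportion of at most `τ`; in
`Pool.Agent.W263.BSD` (file `Pool/Agent/W263/BSD/Defs.lean`): `pointCount a n p` is the number of the solutions of
`y² = x³ + a x + n` modulo `p`, `GoodPrime a n p`: `p` is a prime which does not divide `2 (4 a³ + 27 n²)`. -/

set_option autoImplicit false

namespace Pool.Agent.Results.MP_f1937f_nt.DigitFamilies

open Finset Pool.Agent.R459.Eq
open Pool.Agent.W263.BSD (GoodPrime pointCount)

/-- `p` is a prime of good reduction of `y² = x³ + a x + n`, and the trace of Frobenius `a_p = p - N_p` is `r`. -/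
def Trace (r : ℤ) (p : ℕ) (a n : ℤ) : Prop := GoodPrime a n p ∧ (p : ℤ) - pointCount a n p = r

open Classical in
/-- The number `P_{E, r}(x)` of the primes `p ≤ x` of good reduction of `E : y² = x³ + a x + n` with `a_p(E) = r`. -/
noncomputable def langTrotter (a n r : ℤ) (x : ℕ) : ℕ := ((range (x + 1)).filter (fun p => Trace r p a n)).card

open Classical in
/-- The sum over the primes `p ≤ x` of the proportion of the residues `ν` modulo `p` for which `p` is a prime of good reduction
of `y² = x³ + a x + ν` with trace `r`. -/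
noncomputable def model (a r : ℤ) (x : ℕ) : ℝ :=
  ∑ p ∈ (range (x + 1)).filter Nat.Prime, (((range p).filter (fun ν : ℕ => Trace r p a ν)).card : ℝ) / p

open Classical in
/-- The sum over the primes `p ≤ x` of the proportion of the pairs `(α, ν)` of residues modulo `p` for which `p` is a prime of
good reduction of `y² = x³ + α x + ν` with trace `r`. -/
noncomputable def modelPairs (r : ℤ) (x : ℕ) : ℝ :=
  ∑ p ∈ (range (x + 1)).filter Nat.Prime,
    (((range p ×ˢ range p).filter (fun z : ℕ × ℕ => Trace r p z.1 z.2)).card : ℝ) / (p : ℝ) ^ 2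

lemma pri_eq (x : ℕ) [DecidablePred Nat.Prime] : (range (x + 1)).filter Nat.Prime = pri x := by
  unfold pri
  congr!

lemma langTrotter_eq (a n r : ℤ) (x : ℕ) : langTrotter a n r x = cntR (Trace r) a n x := by
  classical
  unfold langTrotter cntR
  congr 1
  ext p
  simp only [mem_filter, mem_range, mem_pri]
  constructor
  · rintro ⟨h1, h2⟩
    exact ⟨⟨by omega, h2.1.1⟩, h2⟩
  · rintro ⟨h1, h2⟩
    exact ⟨by omega, h2⟩

lemma model_eq (a r : ℤ) (x : ℕ) : model a r x = ∑ p ∈ pri x, Pool.Agent.R459.Eq.dens (Trace r) a p := by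
  classical
  unfold model Pool.Agent.R459.Eq.dens
  rw [pri_eq]

lemma modelPairs_eq (r : ℤ) (x : ℕ) : modelPairs r x = ∑ p ∈ pri x, dens2 (Trace r) p := by
  classical
  unfold modelPairs dens2
  rw [pri_eq]

lemma trace_per (r : ℤ) (p : ℕ) (a a' n n' : ℤ) (h : (p : ℤ) ∣ a - a') (h' : (p : ℤ) ∣ n - n') :
    Trace r p a n ↔ Trace r p a' n' := by
  have e1 : ((a : ℤ) : ZMod p) = ((a' : ℤ) : ZMod p) := by
    rw [← sub_eq_zero, ← Int.cast_sub, ZMod.intCast_zmod_eq_zero_iff_dvd]
    exact h
  have e2 : ((n : ℤ) : ZMod p) = ((n' : ℤ) : ZMod p) := by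
    rw [← sub_eq_zero, ← Int.cast_sub, ZMod.intCast_zmod_eq_zero_iff_dvd]
    exact h'
  have h1 : GoodPrime a n p ↔ GoodPrime a' n' p := by
    unfold GoodPrime
    rw [← ZMod.intCast_zmod_eq_zero_iff_dvd, ← ZMod.intCast_zmod_eq_zero_iff_dvd]
    push_cast
    rw [e1, e2]
  have h2 : pointCount a n p = pointCount a' n' p := by
    unfold pointCount
    rw [e1, e2]
  unfold Trace
  rw [h1, h2]

/-- **Lang–Trotter counts for almost all curves with coefficients in sparse families given by digits.** Let `b ≥ 2`, `η > 0`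
and `0 < δ ≤ 1 / 2`. There is `W` such that for `κ ≠ 0` and all sufficiently large `X` the following holds for all `k ≥ 2` and all `c`, for the
families of integers `c + κ v` with `k` digits described by `Almost` (the rearrangements `v` of `k` digits, the palindromes,
the integers with independent pairs of mirror digits).

(1) For EVERY integer `a`, almost all the members `n` of the families, up to a proportion of at most `4 X ^ (- δ / 2)`, have for
ALL `x ≥ X` with `x ^ W ≤ b ^ k` and ALL integers `|r| ≤ x ^ (δ / 2)`: with `M` the sum over `p ≤ x` of the proportion of the residues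
`ν` modulo `p` such that `y² = x³ + a x + ν` has the trace `r`, and `M'` the same sum over `p ≤ 2 x`, the number of the
primes `p ≤ x` of good reduction of `y² = x³ + a x + n` with the trace `r` differs from `M` by at most
`(max 1 M') ^ (1 / 2) x ^ δ`.

(2) Almost all the members `a` of the families, up to a proportion of at most `4 X ^ (- δ / 2)`, have for ALL `x ≥ X` with
`x ^ W ≤ b ^ k` and ALL integers `|r| ≤ x ^ (δ / 2)`: the sum `M` differs from the sum over `p ≤ x` of the proportion of the
PAIRS of coefficients modulo `p` which have the trace `r` by at most `x ^ δ` times the square root of the maximum of `1` and the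
sum of the proportions of the pairs over `p ≤ 2 x`. -/
theorem result (b : ℕ) (hb : 2 ≤ b) (η : ℝ) (hη : 0 < η) (δ : ℝ) (hδ : 0 < δ) (hδ1 : δ ≤ 1 / 2) : ∃ W : ℕ, 1 ≤ W ∧
    ∀ κ : ℤ, κ ≠ 0 → ∃ X₀ : ℕ, ∀ X : ℕ, X₀ ≤ X → ∀ k : ℕ, 2 ≤ k → ∀ c : ℤ,
    (∀ a : ℤ, Almost b k κ c η (4 * (X : ℝ) ^ (-(δ / 2))) (fun n => ∀ x : ℕ, X ≤ x → x ^ W ≤ b ^ k →
      ∀ r : ℤ, (|r| : ℝ) ≤ (x : ℝ) ^ (δ / 2) →
        |(langTrotter a n r x : ℝ) - model a r x| ≤ √(max 1 (model a r (2 * x))) * (x : ℝ) ^ δ)) ∧
    Almost b k κ c η (4 * (X : ℝ) ^ (-(δ / 2))) (fun a => ∀ x : ℕ, X ≤ x → x ^ W ≤ b ^ k →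
      ∀ r : ℤ, (|r| : ℝ) ≤ (x : ℝ) ^ (δ / 2) →
        |model a r x - modelPairs r x| ≤ √(max 1 (modelPairs r (2 * x))) * (x : ℝ) ^ δ) := by
  obtain ⟨W, hW, H⟩ := two_count b hb η hη δ hδ hδ1
  refine ⟨W, hW, fun κ hκ => ?_⟩
  obtain ⟨X₀, J⟩ := H κ hκ
  refine ⟨X₀, fun X hX k hk c => ?_⟩
  have hfew : ∀ σ : ℤ, σ = 1 ∨ σ = -1 → ∀ p : ℕ, p.Prime → ∀ (a n : ℤ) (Q : Finset ℕ), (∀ j ∈ Q, Trace (σ * j) p a n) →
      Q.card ≤ Nat.log 2 p + 3 := by
    intro σ hσ p _ a n Q hQ
    have h1 : Q.card ≤ 1 := by
      rw [card_le_one]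
      intro j hj j' hj'
      have h2 := (hQ j hj).2
      have h3 := (hQ j' hj').2
      rw [h2] at h3
      have h4 : (j : ℤ) = j' := by
        rcases hσ with h | h <;> rw [h] at h3 <;> linarith
      exact_mod_cast h4
    omega
  obtain ⟨h1, h2⟩ := J X hX k hk c (fun j : ℕ => Trace (1 * j)) (fun j p _ a a' n n' => trace_per _ p a a' n n') (hfew 1 (Or.inl rfl))
  obtain ⟨h3, h4⟩ := J X hX k hk c (fun j : ℕ => Trace (-1 * j)) (fun j p _ a a' n n' => trace_per _ p a a' n n') (hfew (-1) (Or.inr rfl))
  have hr : ∀ r : ℤ, ∃ j : ℕ, (r = 1 * j ∨ r = -1 * j) ∧ (j : ℝ) = |(r : ℝ)| := by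
    intro r
    refine ⟨r.natAbs, ?_, ?_⟩
    · rcases Int.natAbs_eq r with h | h
      · left
        omega
      · right
        omega
    · rw [← Int.cast_abs, Int.abs_eq_natAbs]
      rfl
  have h8 : (4 : ℝ) * (X : ℝ) ^ (-(δ / 2)) = 2 * (X : ℝ) ^ (-(δ / 2)) + 2 * (X : ℝ) ^ (-(δ / 2)) := by ring
  rw [h8]
  constructor
  · intro a
    refine Almost.mono (Almost.and (h1 a) (h3 a)) ?_
    rintro n ⟨hn, hn'⟩ x hXx hxW r hrx
    rw [langTrotter_eq, model_eq, model_eq]
    obtain ⟨j, hj | hj, hj2⟩ := hr r
    · rw [hj]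
      exact (hn x hXx hxW).2 j (by rw [hj2]; exact hrx)
    · rw [hj]
      exact (hn' x hXx hxW).2 j (by rw [hj2]; exact hrx)
  · refine Almost.mono (Almost.and h2 h4) ?_
    rintro a ⟨hn, hn'⟩ x hXx hxW r hrx
    rw [model_eq, modelPairs_eq, modelPairs_eq]
    obtain ⟨j, hj | hj, hj2⟩ := hr r
    · rw [hj]
      exact (hn x hXx hxW).2 j (by rw [hj2]; exact hrx)
    · rw [hj]
      exact (hn' x hXx hxW).2 j (by rw [hj2]; exact hrx)

end Pool.Agent.Results.MP_f1937f_nt.DigitFamilies
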