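import Pool.Agent.R418.GE.B

set_option autoImplicit false

/-!
# Joint Lang–Trotter counts for almost all fibres of elliptic surfaces

Let `E_i : y² = x³ + a_i(t) x + b_i(t)`, `i < m`, be elliptic surfaces, with ARBITRARY polynomials
`a_i`, `b_i` in `ℤ[t]` (no condition on the degrees, on the size of the coefficients or on the
surfaces), or more generally with arbitrary pseudo-polynomials (sequences of integers with
`p ∣ a(t + p) - a(t)` for all primes `p`).  Let `E_{i,j}` be the fibres at `t = j`, `j < N`.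

For almost all `j`, up to a proportion of at most `X ^ (-A)` (any `A`), the following holds for ALL
`x ≥ X` up to a fixed power of `N`, all traces `r_1, …, r_m` and all residue classes `u` modulo
`q ≤ x`: the number of the primes `p ≤ x`, `p ≡ u` modulo `q`, of good reduction of
`E_{1,j}, …, E_{m,j}` with `a_p(E_{i,j}) = r_i` for all `i`, is the sum over the primes `p ≤ x`,
`p ≡ u` modulo `q`, of the exact proportion of the `t` modulo `p` with this property, with an error
of the size of the SQUARE ROOT of this sum (times `x ^ δ`).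
-/

namespace Pool.Agent.Results.MP_f1937f_nt.EllipticSurfaces

open Finset Polynomial

/-- `N_p`: the number of pairs `(x, y) ∈ (ℤ/p)²` with `y² = x³ + a x + b`. -/
noncomputable def pointCount (a b : ℤ) (p : ℕ) : ℕ :=
  Nat.card {q : ZMod p × ZMod p // q.2 ^ 2 = q.1 ^ 3 + (a : ZMod p) * q.1 + (b : ZMod p)}

/-- `p` is a prime not dividing `2 (4 a³ + 27 b²)` and the trace of Frobenius `a_p = p - N_p` of
`y² = x³ + a x + b` is `r`. -/
def Trace (r : ℤ) (p : ℕ) (a b : ℤ) : Prop :=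
  p.Prime ∧ ¬ ((p : ℤ) ∣ 2 * (4 * a ^ 3 + 27 * b ^ 2)) ∧ (p : ℤ) - pointCount a b p = r

/-- `p` is a prime congruent to `u` modulo `q`, and the `m` curves `y² = x³ + a i x + b i` have good
reduction at `p`, with traces of Frobenius `r i` -/
def Ev {m : ℕ} (r : Fin m → ℤ) (q u p : ℕ) (a b : Fin m → ℤ) : Prop :=
  p.Prime ∧ p % q = u ∧ ∀ i, Trace (r i) p (a i) (b i)

open Classical in
/-- the number of the primes `p ≤ x` with `Ev` -/
noncomputable def count {m : ℕ} (r : Fin m → ℤ) (q u : ℕ) (a b : Fin m → ℤ) (x : ℕ) : ℕ :=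
  ((range (x + 1)).filter (fun p => Ev r q u p a b)).card

open Classical in
/-- the sum over `p ≤ x` of the proportion of the `t` modulo `p` such that the fibres at `t` have
the property `Ev` -/
noncomputable def model {m : ℕ} (r : Fin m → ℤ) (q u : ℕ) (a b : Fin m → ℕ → ℤ) (x : ℕ) : ℝ :=
  ∑ p ∈ range (x + 1),
    (((range p).filter (fun t => Ev r q u p (fun i => a i t) (fun i => b i t))).card : ℝ) / p

/-- pseudo-polynomials -/
def Pseudo (f : ℕ → ℤ) : Prop := ∀ p t : ℕ, p.Prime → (p : ℤ) ∣ f (t + p) - f t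

theorem pseudo_poly (f : ℤ[X]) : Pseudo (fun t => f.eval (t : ℤ)) := by
  intro p t _
  have h1 := Polynomial.sub_dvd_eval_sub ((t + p : ℕ) : ℤ) (t : ℤ) f
  have h2 : ((t + p : ℕ) : ℤ) - (t : ℤ) = p := by push_cast; ring
  rwa [h2] at h1

theorem trace_congr (r : ℤ) (p : ℕ) {a a' b b' : ℤ} (h : (p : ℤ) ∣ a' - a)
    (h' : (p : ℤ) ∣ b' - b) : Trace r p a' b' ↔ Trace r p a b := by
  have e1 : ((a' : ℤ) : ZMod p) = ((a : ℤ) : ZMod p) := by
    rw [← sub_eq_zero, ← Int.cast_sub, ZMod.intCast_zmod_eq_zero_iff_dvd]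
    exact h
  have e2 : ((b' : ℤ) : ZMod p) = ((b : ℤ) : ZMod p) := by
    rw [← sub_eq_zero, ← Int.cast_sub, ZMod.intCast_zmod_eq_zero_iff_dvd]
    exact h'
  have h1 : ((p : ℤ) ∣ 2 * (4 * a' ^ 3 + 27 * b' ^ 2)) ↔
      ((p : ℤ) ∣ 2 * (4 * a ^ 3 + 27 * b ^ 2)) := by
    rw [← ZMod.intCast_zmod_eq_zero_iff_dvd, ← ZMod.intCast_zmod_eq_zero_iff_dvd]
    push_cast
    rw [e1, e2]
  have h2 : pointCount a' b' p = pointCount a b p := by
    unfold pointCount
    rw [e1, e2]
  unfold Trace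
  rw [h1, h2]

theorem pointCount_le (a b : ℤ) (p : ℕ) (hp : p.Prime) : pointCount a b p ≤ p ^ 2 := by
  have : Fact p.Prime := ⟨hp⟩
  unfold pointCount
  refine (Nat.card_le_card_of_injective Subtype.val Subtype.val_injective).trans ?_
  rw [Nat.card_prod, Nat.card_zmod, sq]

theorem trace_le {r : ℤ} {p x : ℕ} {a b : ℤ} (h : Trace r p a b) (hpx : p ≤ x) :
    r ∈ Icc (-((x : ℤ) ^ 2)) ((x : ℤ) ^ 2) := by
  obtain ⟨hp, _, hr⟩ := h
  have h1 := pointCount_le a b p hp
  have h2 : (pointCount a b p : ℤ) ≤ (x : ℤ) ^ 2 := by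
    have : pointCount a b p ≤ x ^ 2 := h1.trans (Nat.pow_le_pow_left hpx 2)
    exact_mod_cast this
  have h3 : (p : ℤ) ≤ (x : ℤ) ^ 2 := by
    have : p ≤ x ^ 2 := hpx.trans (Nat.le_self_pow two_ne_zero x)
    exact_mod_cast this
  rw [mem_Icc]
  constructor <;> omega

theorem result :
    (∀ f : ℤ[X], Pseudo (fun t => f.eval (t : ℤ))) ∧
    ∀ (m A : ℕ) (δ : ℝ), 0 < δ → ∃ W X₀ : ℕ, 1 ≤ W ∧ ∀ a b : Fin m → ℕ → ℤ,
      (∀ i, Pseudo (a i)) → (∀ i, Pseudo (b i)) → ∀ X N : ℕ, X₀ ≤ X →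
        (({j : ℕ | j < N ∧ ∃ x : ℕ, X ≤ x ∧ x ^ W ≤ N ∧
          ∃ (r : Fin m → ℤ) (q u : ℕ), 1 ≤ q ∧ q ≤ x ∧ u < q ∧
            √(max 1 (model r q u a b x)) * (x : ℝ) ^ δ <
              |(count r q u (fun i => a i j) (fun i => b i j) x : ℝ) -
                model r q u a b x|}).ncard : ℝ) * (X : ℝ) ^ A ≤ N := by
  classical
  refine ⟨pseudo_poly, ?_⟩
  intro m A δ hδ
  obtain ⟨W, X₀, hW, hX₀, hgen⟩ := Pool.Agent.R418.GE.general δ A (3 * m + 2) hδ
  refine ⟨W, max X₀ 3, hW, ?_⟩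
  intro a b ha hb X N hX
  have hX1 : X₀ ≤ X := (le_max_left _ _).trans hX
  have hX3 : 3 ≤ X := (le_max_right _ _).trans hX
  obtain ⟨R, hR⟩ : ∃ R : ℕ → Finset ((Fin m → ℤ) × ℕ × ℕ), R = fun x : ℕ => if x < 3 then ∅ else
    (Fintype.piFinset fun _ : Fin m => Icc (-((x : ℤ) ^ 2)) ((x : ℤ) ^ 2)) ×ˢ
      (Icc 1 x ×ˢ range x) := ⟨_, rfl⟩
  obtain ⟨g, hg⟩ : ∃ g : ℕ → ((Fin m → ℤ) × ℕ × ℕ) → ℕ → ℕ → ℝ, g = fun _ s p j =>
    if Ev s.1 s.2.1 s.2.2 p (fun i => a i j) (fun i => b i j) then 1 else 0 := ⟨_, rfl⟩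
  have hRc : ∀ x, (R x).card ≤ x ^ (3 * m + 2) := by
    intro x
    rw [hR]
    simp only
    split_ifs with h
    · simp
    · push Not at h
      rw [card_product, card_product, Fintype.card_piFinset_const, Int.card_Icc, Nat.card_Icc,
        card_range]
      have h1 : ((x : ℤ) ^ 2 + 1 - -((x : ℤ) ^ 2)).toNat = 2 * x ^ 2 + 1 := by
        have : (x : ℤ) ^ 2 + 1 - -((x : ℤ) ^ 2) = ((2 * x ^ 2 + 1 : ℕ) : ℤ) := by push_cast; ring
        rw [this, Int.toNat_natCast]
      rw [h1]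
      have h2 : 2 * x ^ 2 + 1 ≤ x ^ 3 := by
        have : 3 * x ^ 2 ≤ x ^ 3 := by
          rw [pow_succ x 2, mul_comm]
          exact Nat.mul_le_mul_left _ h
        have h4 : 1 ≤ x ^ 2 := Nat.one_le_pow _ _ (by omega)
        omega
      calc (2 * x ^ 2 + 1) ^ m * ((x + 1 - 1) * x) ≤ (x ^ 3) ^ m * (x * x) := by
            apply Nat.mul_le_mul (Nat.pow_le_pow_left h2 m)
            rw [Nat.add_sub_cancel]
        _ = x ^ (3 * m + 2) := by rw [← pow_mul]; ring
  have hsys : ∀ x s, Pool.Agent.R418.GE.Sys (g x s) := by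
    intro x s
    rw [hg]
    refine ⟨fun p n => ?_, fun p hp n => ?_⟩
    · simp only
      split_ifs <;> norm_num
    · simp only
      have : Ev s.1 s.2.1 s.2.2 p (fun i => a i (n + p)) (fun i => b i (n + p)) ↔
          Ev s.1 s.2.1 s.2.2 p (fun i => a i n) (fun i => b i n) := by
        unfold Ev
        refine and_congr_right fun _ => and_congr_right fun _ => forall_congr' fun i => ?_
        exact trace_congr _ p (ha i p n hp) (hb i p n hp)
      rw [if_congr this rfl rfl]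
  have hcnt : ∀ x s j, Pool.Agent.R418.GE.cnt (g x s) x j =
      (count s.1 s.2.1 s.2.2 (fun i => a i j) (fun i => b i j) x : ℝ) := by
    intro x s j
    rw [Pool.Agent.R418.GE.cnt, hg, count, Pool.Agent.R418.GE.pr]
    simp only
    rw [← sum_filter, sum_const, nsmul_eq_mul, mul_one, filter_filter]
    congr 2
    refine filter_congr fun p _ => ?_
    exact ⟨fun h => h.2, fun h => ⟨h.1, h⟩⟩
  have hmdl : ∀ x s, Pool.Agent.R418.GE.mdl (g x s) x = model s.1 s.2.1 s.2.2 a b x := by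
    intro x s
    rw [Pool.Agent.R418.GE.mdl, model, Pool.Agent.R418.GE.pr, sum_filter]
    refine sum_congr rfl fun p _ => ?_
    by_cases hp : p.Prime
    · rw [if_pos hp, Pool.Agent.R418.GE.mean, hg]
      simp only
      rw [← sum_filter, sum_const, nsmul_eq_mul, mul_one]
    · rw [if_neg hp]
      have : (range p).filter (fun t => Ev s.1 s.2.1 s.2.2 p (fun i => a i t) (fun i => b i t)) =
          ∅ := by
        rw [filter_eq_empty_iff]
        intro t _ h
        exact hp h.1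
      rw [this, card_empty, Nat.cast_zero, zero_div]
  have hfin : ({j : ℕ | j < N ∧ ∃ x : ℕ, X ≤ x ∧ x ^ W ≤ N ∧
          ∃ (r : Fin m → ℤ) (q u : ℕ), 1 ≤ q ∧ q ≤ x ∧ u < q ∧
            √(max 1 (model r q u a b x)) * (x : ℝ) ^ δ <
              |(count r q u (fun i => a i j) (fun i => b i j) x : ℝ) -
                model r q u a b x|} : Set ℕ).Finite :=
    (Set.finite_Iio N).subset fun j hj => hj.1
  rw [Set.ncard_eq_toFinset_card _ hfin]
  refine hgen _ R g hRc hsys X N hX1 _ fun j hj => ?_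
  obtain ⟨hjN, x, hx1, hx2, r, q, u, hq1, hq2, hu, hbad⟩ := (Set.Finite.mem_toFinset hfin).1 hj
  refine ⟨hjN, x, hx1, hx2, (r, q, u), ?_, ?_⟩
  · have hx3 : ¬ x < 3 := by omega
    rw [hR]
    simp only
    rw [if_neg hx3, mem_product, mem_product, Fintype.mem_piFinset, mem_Icc, mem_range]
    refine ⟨fun i => ?_, ⟨hq1, hq2⟩, lt_of_lt_of_le hu hq2⟩
    by_contra hcon
    have hno : ∀ p ≤ x, ∀ A B : Fin m → ℤ, ¬ Ev r q u p A B := fun p hp A B h =>
      hcon (trace_le (h.2.2 i) hp)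
    have h1 : count r q u (fun i => a i j) (fun i => b i j) x = 0 := by
      rw [count, card_eq_zero, filter_eq_empty_iff]
      intro p hp
      rw [mem_range] at hp
      exact hno p (by omega) _ _
    have h2 : model r q u a b x = 0 := by
      rw [model]
      refine sum_eq_zero fun p hp => ?_
      rw [mem_range] at hp
      have : (range p).filter (fun t => Ev r q u p (fun i => a i t) (fun i => b i t)) = ∅ := by
        rw [filter_eq_empty_iff]
        intro t _
        exact hno p (by omega) _ _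
      rw [this, card_empty, Nat.cast_zero, zero_div]
    rw [h1, h2, Nat.cast_zero, sub_zero, abs_zero] at hbad
    have h3 : 0 ≤ √(max 1 (0 : ℝ)) * (x : ℝ) ^ δ := by positivity
    linarith
  · rw [hcnt, hmdl]
    exact hbad

end Pool.Agent.Results.MP_f1937f_nt.EllipticSurfaces
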