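import Mathlib
import Pool.Agent.R429.TL.PiE
import Pool.Agent.R429.TL.ExpEquiv

/-!
# Primes with a fixed Frobenius trace: exponentially few quadratic twists decide for all the others

Nothing is used besides Mathlib in the statement, except `Pool.Agent.R429.TL.piE` (the number of the primes `p ≤ x` not
dividing `2 (4 A ^ 3 + 27 B ^ 2)` with `p + 1 - #E(F_p) = a` for `E : Y ^ 2 = X ^ 3 + A X + B`).
-/

set_option autoImplicit false

namespace Pool.Agent.Results.MP_f1937f_nt.OneTwistForcesMost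

open Finset Filter Pool.Agent.R429.TL Topology

noncomputable section

/-- `P_{E_D, a}(x)` for the quadratic twist `E_D : Y ^ 2 = X ^ 3 + A D ^ 2 X + B D ^ 3` of `E : Y ^ 2 = X ^ 3 + A X + B`. -/
def twistCount (A B a D : ℤ) (x : ℕ) : ℝ := (piE (A * D ^ 2) (B * D ^ 3) a x : ℝ)

/-- `P_{E, a}(x) + P_{E, -a}(x)`. -/
def both (A B a : ℤ) (x : ℕ) : ℝ := (piE A B a x : ℝ) + piE A B (-a) x

/-- The number of the integers `D`, `0 < |D| ≤ N`, with the property `R`. -/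
def number (N : ℕ) (R : ℤ → Prop) : ℝ := (({D : ℤ | D ≠ 0 ∧ |D| ≤ N ∧ R D}.ncard : ℕ) : ℝ)

lemma g_top : Tendsto (fun x : ℕ => √x / Real.log x) atTop atTop := by
  have h4 : Tendsto (fun x : ℕ => (x : ℝ) ^ (1 / 4 : ℝ)) atTop atTop :=
    (tendsto_rpow_atTop (by norm_num : (0 : ℝ) < 1 / 4)).comp tendsto_natCast_atTop_atTop
  refine tendsto_atTop_mono' atTop ?_ h4
  have h := (isLittleO_log_rpow_atTop (by norm_num : (0 : ℝ) < 1 / 4)).comp_tendsto (tendsto_natCast_atTop_atTop (R := ℝ))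
  filter_upwards [h.bound (c := 1) one_pos, eventually_ge_atTop 3] with x hx hx3
  simp only [Function.comp_apply, one_mul] at hx
  have hx0 : (3 : ℝ) ≤ x := by exact_mod_cast hx3
  have hl : 0 < Real.log x := Real.log_pos (by linarith)
  rw [Real.norm_of_nonneg hl.le, Real.norm_of_nonneg (by positivity)] at hx
  rw [le_div_iff₀ hl]
  calc (x : ℝ) ^ (1 / 4 : ℝ) * Real.log x ≤ (x : ℝ) ^ (1 / 4 : ℝ) * (x : ℝ) ^ (1 / 4 : ℝ) := by gcongr
    _ = √x := by rw [← Real.rpow_add (by linarith), Real.sqrt_eq_rpow]; norm_num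

/-- Let `E : Y ^ 2 = X ^ 3 + A X + B` be an elliptic curve (any `A`, `B`), `a` an integer, `E_D` the quadratic twists.

(1) For all `x`, all `N ≥ 4 ^ x` and all `0 < η ≤ 1`, with `T = P_{E, a}(x) + P_{E, -a}(x)`: `P_{E_D, a}(x)` is `T / 2` up to `η T / 2`
for all but `8 e ^ (8 - η ^ 2 T / 8) N` of the `D` with `0 < |D| ≤ N` (and it is at most `T` for every `D ≠ 0`).

(2) Asymptotics. For every real `K` are equivalent: (a) the mean of `P_{E, a}(x) log x / √x` and `P_{E, -a}(x) log x / √x` tends to `K`;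
(b) for every `η > 0` there is a `c > 0` such that for `x` large and all `N ≥ 4 ^ x`, `|P_{E_D, a}(x) log x / √x - K| ≤ η` for all but
`e ^ (-c √x / log x) N` of the `D` with `0 < |D| ≤ N`; (c) for all `η, c > 0`, for `x` large and some `N ≥ 4 ^ x`,
`|P_{E_D, a}(x) log x / √x - K| ≤ η` for at least `e ^ (-c √x / log x) N` of these `D`.

(3) Upper bounds. For every function `g ≥ 1` are equivalent: (a) `P_{E, a}(x)` and `P_{E, -a}(x)` are `O(g(x))`; (b) for some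
`K` and all `D ≠ 0` and `x`: `P_{E_D, a}(x) ≤ K g(x)`; (c) for some `K`, for every `x` and some `N ≥ 4 ^ x`,
`P_{E_D, a}(x) ≤ K g(x)` for at least `e ^ (-K g(x)) N` of the `D` with `0 < |D| ≤ N`.

(4) The case `g = 1` of (3): `P_{E, a}` and `P_{E, -a}` are bounded if and only if for some `B₀` and `δ > 0`, for every `x` and
some `N ≥ 4 ^ x`, `P_{E_D, a}(x) ≤ B₀` for at least `δ N` of the `D` with `0 < |D| ≤ N`.

(5) Lower bounds. For every function `g → ∞` are equivalent: (a) `P_{E, a}(x) + P_{E, -a}(x) ≥ c g(x)` for some `c > 0` and all large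
`x`; (b) for some `c > 0`, for `x` large and all `N ≥ 4 ^ x`, `P_{E_D, a}(x) < c g(x)` for at most `e ^ (-c g(x)) N` of the `D` with
`0 < |D| ≤ N`; (c) for some `c > 0`, for every large `x` there is one `D ≠ 0` with `P_{E_D, a}(x) ≥ c g(x)`. -/
theorem result (A B a : ℤ) :
    -- (1)
    ((∀ x N : ℕ, 4 ^ x ≤ N → ∀ η : ℝ, 0 < η → η ≤ 1 →
      number N (fun D => ¬ |twistCount A B a D x - both A B a x / 2| ≤ η * (both A B a x / 2)) ≤
        8 * N * Real.exp (8 - η ^ 2 * both A B a x / 8)) ∧ ∀ x : ℕ, ∀ D : ℤ, twistCount A B a D x ≤ both A B a x) ∧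
    -- (2)
    (∀ K : ℝ, [Tendsto (fun x : ℕ => both A B a x / (2 * (√x / Real.log x))) atTop (𝓝 K),
      ∀ η : ℝ, 0 < η → ∃ c : ℝ, 0 < c ∧ ∀ᶠ x : ℕ in atTop, ∀ N : ℕ, 4 ^ x ≤ N →
        number N (fun D => ¬ |twistCount A B a D x / (√x / Real.log x) - K| ≤ η) ≤ Real.exp (-(c * (√x / Real.log x))) * N,
      ∀ η : ℝ, 0 < η → ∀ c : ℝ, 0 < c → ∀ᶠ x : ℕ in atTop, ∃ N : ℕ, 4 ^ x ≤ N ∧
        Real.exp (-(c * (√x / Real.log x))) * N ≤
          number N (fun D => |twistCount A B a D x / (√x / Real.log x) - K| ≤ η)].TFAE) ∧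
    -- (3)
    (∀ g : ℕ → ℝ, (∀ x, 1 ≤ g x) → [∃ K : ℝ, ∀ x, both A B a x ≤ K * g x,
      ∃ K : ℝ, ∀ D : ℤ, D ≠ 0 → ∀ x, twistCount A B a D x ≤ K * g x,
      ∃ K : ℝ, ∀ x, ∃ N : ℕ, 4 ^ x ≤ N ∧ Real.exp (-(K * g x)) * N ≤ number N (fun D => twistCount A B a D x ≤ K * g x)].TFAE) ∧
    -- (4)
    ((∃ B₀ : ℝ, ∀ x, (piE A B a x : ℝ) ≤ B₀ ∧ (piE A B (-a) x : ℝ) ≤ B₀) ↔
      ∃ B₀ δ : ℝ, 0 < δ ∧ ∀ x, ∃ N : ℕ, 4 ^ x ≤ N ∧ δ * N ≤ number N (fun D => twistCount A B a D x ≤ B₀)) ∧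
    -- (5)
    (∀ g : ℕ → ℝ, Tendsto g atTop atTop → [∃ c : ℝ, 0 < c ∧ ∀ᶠ x : ℕ in atTop, c * g x ≤ both A B a x,
      ∃ c : ℝ, 0 < c ∧ ∀ᶠ x : ℕ in atTop, ∀ N : ℕ, 4 ^ x ≤ N →
        number N (fun D => twistCount A B a D x < c * g x) ≤ Real.exp (-(c * g x)) * N,
      ∃ c : ℝ, 0 < c ∧ ∀ᶠ x : ℕ in atTop, ∃ D : ℤ, D ≠ 0 ∧ c * g x ≤ twistCount A B a D x].TFAE) := by
  have hlaw : ExpLaw (twistCount A B a) (both A B a) := by
    intro x N hN η hη hη1
    exact piE_law A B a x N hN η hη hη1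
  have hn0 : ∀ D x, 0 ≤ twistCount A B a D x := fun D x => Nat.cast_nonneg _
  have hn : ∀ D x, twistCount A B a D x ≤ both A B a x := by
    intro D x
    unfold twistCount both
    exact_mod_cast piE_le A B a D x
  have h3 : ∀ g : ℕ → ℝ, (∀ x, 1 ≤ g x) → [∃ K : ℝ, ∀ x, both A B a x ≤ K * g x,
      ∃ K : ℝ, ∀ D : ℤ, D ≠ 0 → ∀ x, twistCount A B a D x ≤ K * g x,
      ∃ K : ℝ, ∀ x, ∃ N : ℕ, 4 ^ x ≤ N ∧ Real.exp (-(K * g x)) * N ≤ number N (fun D => twistCount A B a D x ≤ K * g x)].TFAE :=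
    fun g hg => expUpper _ _ hn0 hn hlaw g hg
  refine ⟨⟨fun x N hN η hη hη1 => hlaw x N hN η hη hη1, fun x D => hn D x⟩, fun K => expAsymp _ _ hn0 hn hlaw _ g_top K, h3, ?_,
    fun g hg => expLower _ _ hn0 hn hlaw g hg⟩
  have h4 := h3 (fun _ => 1) (fun _ => le_rfl)
  constructor
  · rintro ⟨B₀, h⟩
    have h5 : ∃ K : ℝ, ∀ D : ℤ, D ≠ 0 → ∀ x, twistCount A B a D x ≤ K * (fun _ : ℕ => (1 : ℝ)) x := by
      apply (h4.out 0 1).1
      refine ⟨2 * B₀, fun x => ?_⟩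
      unfold both
      have := h x
      linarith [this.1, this.2]
    obtain ⟨K, hK⟩ := (h4.out 1 2).1 h5
    exact ⟨K * 1, Real.exp (-(K * 1)), Real.exp_pos _, hK⟩
  · rintro ⟨B₀, δ, hδ, h⟩
    have h5 : ∃ K : ℝ, ∀ x : ℕ, ∃ N : ℕ, 4 ^ x ≤ N ∧ Real.exp (-(K * (fun _ : ℕ => (1 : ℝ)) x)) * N ≤
        number N (fun D => twistCount A B a D x ≤ K * (fun _ : ℕ => (1 : ℝ)) x) := by
      refine ⟨max B₀ (-Real.log δ), fun x => ?_⟩
      obtain ⟨N, hN, h6⟩ := h x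
      refine ⟨N, hN, ?_⟩
      beta_reduce
      rw [mul_one]
      have h7 : Real.exp (-(max B₀ (-Real.log δ))) ≤ δ := by
        calc Real.exp (-(max B₀ (-Real.log δ))) ≤ Real.exp (Real.log δ) := by
              apply Real.exp_le_exp.2
              have := le_max_right B₀ (-Real.log δ)
              linarith
          _ = δ := Real.exp_log hδ
      have h8 : number N (fun D => twistCount A B a D x ≤ B₀) ≤
          number N (fun D => twistCount A B a D x ≤ max B₀ (-Real.log δ)) := by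
        unfold number
        have : {D : ℤ | D ≠ 0 ∧ |D| ≤ N ∧ twistCount A B a D x ≤ B₀}.ncard ≤
            {D : ℤ | D ≠ 0 ∧ |D| ≤ N ∧ twistCount A B a D x ≤ max B₀ (-Real.log δ)}.ncard :=
          Set.ncard_le_ncard (fun D hD => ⟨hD.1, hD.2.1, hD.2.2.trans (le_max_left _ _)⟩) (fin_set N _)
        exact_mod_cast this
      have hN0 : (0 : ℝ) ≤ N := Nat.cast_nonneg _
      calc _ ≤ δ * N := by gcongr
        _ ≤ _ := h6
        _ ≤ _ := h8
    obtain ⟨K, hK⟩ := (h4.out 2 0).1 h5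
    refine ⟨K * 1, fun x => ?_⟩
    have := hK x
    unfold both at this
    have h9 : (0 : ℝ) ≤ piE A B a x := Nat.cast_nonneg _
    have h10 : (0 : ℝ) ≤ piE A B (-a) x := Nat.cast_nonneg _
    exact ⟨by linarith, by linarith⟩

end

end Pool.Agent.Results.MP_f1937f_nt.OneTwistForcesMost
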